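import Pool.Agent.N70.PP.Stm
import Pool.Agent.Y730.AW.Zero
import Pool.Agent.Y562.AW.Place
import Pool.Agent.Y421.AW.Int
import Pool.Agent.Y421.AW.Res

/-!
# The norm of `Θ_Z` when the degree of the discriminant is even (helper744)

After `Pool/Agent/Y730/AW/Zero.lean` (helper730) and `Pool/Agent/Y562/AW/Place.lean` (helper562).
-/

set_option autoImplicit false

namespace Pool.Agent.N744.PP

open Polynomial Pool.Agent.Y140.AW Pool.Agent.Y730.AW Pool.Agent.Y562.AW

theorem t_zeroB (h : St_res) :
    ∀ (p : ℕ) [Fact p.Prime] (K N : Type) [Field K] [CharP K p] [Field N] [IsAlgClosed N]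
    [Algebra K N] (Θ : K[X][X]) (D₀ D : K[X]) (d B m : ℕ), DD Θ D₀ d → BB Θ B m → D = D₀ ^ 4 →
    Even D₀.natDegree → ∀ ν : Fin m → N, ∃ S : Finset (N × N),
      (∀ z, z ∈ S ↔ (GG D p B ν).eval z.1 = 0 ∧ (tA Θ z.1).eval z.2 = 0) ∧
      (∀ z ∈ S, aeval z.1 D ≠ 0) ∧
      S.card = d * (p * (B + D.natDegree)) ∧
      ∏ z ∈ S, tZ Θ z.1 z.2 = algebraMap K N (D₀.leadingCoeff ^ (p * B)) := by
  intro p hpp K N _ _ _ _ _ Θ D₀ D d B m hdd hbb hD hDe ν
  classical
  have hp := hpp.out
  have _ : CharP N p := charP_of_injective_algebraMap (algebraMap K N).injective p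
  have hp0 : (p : N) = 0 := CharP.cast_eq_zero N p
  have hD0 : D₀ ≠ 0 := hdd.ne
  have hDne : D ≠ 0 := by
    rw [hD]
    exact pow_ne_zero _ hD0
  obtain ⟨hdeg, hlc⟩ := deg_GG (N := N) hp.two_le hDne hbb.one hbb.m ν
  set g := GG D p B ν with hg
  set k := p * (B + D.natDegree) with hk
  have hg0 : g ≠ 0 := by
    intro h0
    rw [h0, leadingCoeff_zero] at hlc
    exact pow_ne_zero _ ((_root_.map_ne_zero _).2 (leadingCoeff_ne_zero.2 hDne)) hlc.symm
  have hev : ∀ a : N, aeval a D = (D.map (algebraMap K N)).eval a := fun a => by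
    rw [eval_map_algebraMap]
  have hev0 : ∀ a : N, aeval a D₀ = (D₀.map (algebraMap K N)).eval a := fun a => by
    rw [eval_map_algebraMap]
  -- at the roots of `g` the polynomial `D` does not vanish
  have hDa : ∀ a : N, g.eval a = 0 → aeval a D ≠ 0 := by
    intro a ha h0
    rw [hev] at h0
    rw [hg, eval_GG hp.ne_zero ν h0] at ha
    exact one_ne_zero ha
  have hD0a : ∀ a : N, g.eval a = 0 → aeval a D₀ ≠ 0 := by
    intro a ha h0
    apply hDa a ha
    rw [hD, map_pow, h0]
    simp
  have hnod : g.roots.Nodup := by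
    rw [Multiset.nodup_iff_count_le_one]
    intro a
    rw [count_roots]
    by_contra hcon
    push Not at hcon
    obtain ⟨h1, h2⟩ := (one_lt_rootMultiplicity_iff_isRoot hg0).1 hcon
    have h3 : (derivative g).eval a = 0 := h2
    rw [hg, der_GG hp0, eval_pow] at h3
    exact hDa a h1 (by rw [hev]; exact pow_eq_zero_iff hp.ne_zero |>.1 h3)
  have hspl : g.Splits := IsAlgClosed.splits g
  have hcard : Multiset.card g.roots = k := by rw [← hspl.natDegree_eq_card_roots, hdeg]
  -- the fibres
  have hfib : ∀ a : N, g.eval a = 0 → ((tA Θ a).roots.toFinset).card = d ∧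
      (∀ b, b ∈ (tA Θ a).roots.toFinset ↔ (tA Θ a).eval b = 0) ∧
      ∏ b ∈ (tA Θ a).roots.toFinset, tZ Θ a b = aeval a D₀ := by
    intro a ha
    obtain ⟨b, hb1, hb2, hb3⟩ := h K N Θ D₀ d hdd a (hD0a a ha)
    have hmon : (tA Θ a).Monic := hdd.monic.map _
    have hmem : ∀ c, c ∈ (tA Θ a).roots.toFinset ↔ (tA Θ a).eval c = 0 := by
      intro c
      rw [Multiset.mem_toFinset, mem_roots hmon.ne_zero]
      rfl
    have heq : (tA Θ a).roots.toFinset = Finset.univ.image b := by
      ext c
      rw [hmem, hb2, Finset.mem_image]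
      constructor
      · rintro ⟨i, hi⟩
        exact ⟨i, Finset.mem_univ _, hi.symm⟩
      · rintro ⟨i, -, hi⟩
        exact ⟨i, hi.symm⟩
    refine ⟨?_, hmem, ?_⟩
    · rw [heq, Finset.card_image_of_injective _ hb1, Finset.card_univ, Fintype.card_fin]
    · rw [heq, Finset.prod_image fun i _ j _ hij => hb1 hij, hb3]
  have hmemg : ∀ a, a ∈ g.roots.toFinset ↔ g.eval a = 0 := by
    intro a
    rw [Multiset.mem_toFinset, mem_roots hg0]
    rfl
  let S : Finset (N × N) := ((g.roots.toFinset).sigma fun a => (tA Θ a).roots.toFinset).map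
    (Equiv.sigmaEquivProd N N).toEmbedding
  have hS : ∀ z : N × N, z ∈ S ↔ g.eval z.1 = 0 ∧ (tA Θ z.1).eval z.2 = 0 := by
    rintro ⟨a, b⟩
    show (a, b) ∈ ((g.roots.toFinset).sigma fun a => (tA Θ a).roots.toFinset).map
      (Equiv.sigmaEquivProd N N).toEmbedding ↔ _
    rw [Finset.mem_map]
    constructor
    · rintro ⟨⟨a', b'⟩, h1, h2⟩
      rw [Finset.mem_sigma] at h1
      have h3 : (a', b') = (a, b) := h2
      rw [Prod.mk.injEq] at h3
      obtain ⟨rfl, rfl⟩ := h3
      have h4 := (hmemg a').1 h1.1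
      exact ⟨h4, ((hfib a' h4).2.1 b').1 h1.2⟩
    · rintro ⟨h1, h2⟩
      exact ⟨⟨a, b⟩, Finset.mem_sigma.2 ⟨(hmemg a).2 h1, ((hfib a h1).2.1 b).2 h2⟩, rfl⟩
  refine ⟨S, hS, fun z hz => hDa z.1 ((hS z).1 hz).1, ?_, ?_⟩
  · show (((g.roots.toFinset).sigma fun a => (tA Θ a).roots.toFinset).map
      (Equiv.sigmaEquivProd N N).toEmbedding).card = _
    rw [Finset.card_map, Finset.card_sigma, Finset.sum_congr rfl fun a ha => (hfib a ((hmemg a).1 ha)).1,
      Finset.sum_const, Multiset.toFinset_card_of_nodup hnod, hcard, smul_eq_mul, mul_comm]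
  · -- the product
    have h1 : ∏ z ∈ S, tZ Θ z.1 z.2 = (g.roots.map fun a => (D₀.map (algebraMap K N)).eval a).prod := by
      show ∏ z ∈ ((g.roots.toFinset).sigma fun a => (tA Θ a).roots.toFinset).map
        (Equiv.sigmaEquivProd N N).toEmbedding, tZ Θ z.1 z.2 = _
      rw [Finset.prod_map]
      have e1 : ∏ x ∈ (g.roots.toFinset).sigma fun a => (tA Θ a).roots.toFinset,
          tZ Θ ((Equiv.sigmaEquivProd N N).toEmbedding x).1 ((Equiv.sigmaEquivProd N N).toEmbedding x).2 =
          ∏ a ∈ g.roots.toFinset, ∏ b ∈ (tA Θ a).roots.toFinset, tZ Θ a b :=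
        Finset.prod_sigma _ _ _
      rw [e1, Finset.prod_congr rfl fun a ha => (hfib a ((hmemg a).1 ha)).2.2,
        Finset.prod_congr rfl fun a _ => hev0 a]
      show ((g.roots.toFinset).val.map _).prod = _
      rw [Multiset.toFinset_val, Multiset.dedup_eq_self.2 hnod]
    rw [h1]
    set E := D₀.map (algebraMap K N) with hE
    have hEspl : E.Splits := IsAlgClosed.splits E
    set X1 := (g.roots.map fun a => (E.roots.map fun β => a - β).prod).prod with hX1
    have h2 : (g.roots.map fun a => E.eval a).prod = E.leadingCoeff ^ k * X1 := by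
      have e1 : (g.roots.map fun a => E.eval a) = g.roots.map fun a => E.leadingCoeff * (E.roots.map fun β => a - β).prod :=
        Multiset.map_congr rfl fun a _ => hEspl.eval_eq_prod_roots a
      rw [e1, Multiset.prod_map_mul, Multiset.map_const', Multiset.prod_replicate, hcard]
    have e5 : Multiset.card E.roots = D₀.natDegree := by
      rw [← hEspl.natDegree_eq_card_roots, hE, natDegree_map]
    have h3 : X1 = (E.roots.map fun β => (g.roots.map fun a => β - a).prod).prod := by
      rw [hX1, Multiset.prod_map_prod_map]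
      have e0 : (E.roots.map fun β => (g.roots.map fun a => a - β).prod) =
          E.roots.map fun β => (-1 : N) ^ k * (g.roots.map fun a => β - a).prod := by
        refine Multiset.map_congr rfl fun β _ => ?_
        have e1 : (g.roots.map fun a => a - β) = g.roots.map fun a => (-1) * (β - a) :=
          Multiset.map_congr rfl fun a _ => by ring
        rw [e1, Multiset.prod_map_mul, Multiset.map_const', Multiset.prod_replicate, hcard]
      rw [e0, Multiset.prod_map_mul, Multiset.map_const', Multiset.prod_replicate, e5, ← pow_mul,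
        mul_comm k, pow_mul, hDe.neg_one_pow, one_pow, one_mul]
    have h4 : g.leadingCoeff ^ D₀.natDegree * X1 = 1 := by
      have e1 : (E.roots.map fun β => g.eval β) = E.roots.map fun β => g.leadingCoeff * (g.roots.map fun a => β - a).prod :=
        Multiset.map_congr rfl fun β _ => hspl.eval_eq_prod_roots β
      have e2 : (E.roots.map fun β => g.eval β).prod = 1 := by
        have e3 : (E.roots.map fun β => g.eval β) = E.roots.map fun _ => (1 : N) := by
          refine Multiset.map_congr rfl fun β hβ => ?_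
          refine eval_GG hp.ne_zero ν ?_
          have e4 : E.eval β = 0 := (mem_roots'.1 hβ).2
          rw [hD, Polynomial.map_pow, eval_pow, ← hE, e4]
          simp
        rw [e3]
        simp
      rw [e1, Multiset.prod_map_mul, Multiset.map_const', Multiset.prod_replicate, ← h3] at e2
      rwa [e5] at e2
    have hElc : E.leadingCoeff = algebraMap K N D₀.leadingCoeff := by rw [hE, leadingCoeff_map]
    rw [h2, hElc, map_pow]
    rw [hlc, hD, leadingCoeff_pow, map_pow] at h4
    rw [hk, hD, natDegree_pow]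
    set l := algebraMap K N D₀.leadingCoeff with hl
    calc l ^ (p * (B + 4 * D₀.natDegree)) * X1 = l ^ (p * B) * (((l ^ 4) ^ p) ^ D₀.natDegree * X1) := by
          rw [← pow_mul, ← pow_mul, ← mul_assoc, ← pow_add]
          congr 2
          ring
      _ = l ^ (p * B) := by rw [h4, mul_one]


theorem t_placeB : Pool.Agent.N70.PP.St_placeB := by
  classical
  have h1 : St_int := Pool.Agent.Y421.AW.t_int Pool.Agent.Y421.AW.t_res
  have h2 := t_zeroB Pool.Agent.Y421.AW.t_res
  intro p hp K N _ _ _ _ _ Θ D₀ D d B m hDD hBB hD hB ν s hind x θ hx hpt halg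
  obtain ⟨O, hAO, hsO⟩ := exists_val (fun o : Option (Fin m) => o.elim s ν) hind none
  change s ∈ O.nonunits at hsO
  let A : Subalgebra K N :=
    Algebra.adjoin K (Set.range (fun o : Option (Fin m) => o.elim s ν))
  have hsA : s ∈ A := Algebra.subset_adjoin ⟨none, rfl⟩
  have hνA : ∀ i, ν i ∈ A := fun i => Algebra.subset_adjoin ⟨some i, rfl⟩
  -- integral elements are in the valuation ring
  let inc : A →+* O :=
    { toFun := fun y => ⟨y.1, hAO y.1 y.2⟩
      map_one' := rfl
      map_mul' := fun _ _ => rfl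
      map_zero' := rfl
      map_add' := fun _ _ => rfl }
  have hint : ∀ y : N, IsIntegral A y → y ∈ O := by
    rintro y ⟨g, hg1, hg2⟩
    have h4 : IsIntegral O y := by
      refine ⟨g.map inc, hg1.map inc, ?_⟩
      rw [eval₂_map]
      exact hg2
    obtain ⟨z, hz⟩ := IsIntegrallyClosed.isIntegral_iff.mp h4
    rw [← hz]
    exact z.2
  -- algebra structures
  let ι : K →+* O := inc.comp (algebraMap K A)
  let algO : Algebra K O := ι.toAlgebra
  let f : O →ₐ[K] N :=
    { O.subtype with
      commutes' := fun _ => rfl }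
  have hf : Function.Injective f := Subtype.val_injective
  let r : O →ₐ[K] IsLocalRing.ResidueField O := IsScalarTower.toAlgHom K O _
  have hr0 : ∀ y : O, r y = IsLocalRing.residue O y := fun _ => rfl
  have hr : ∀ y : O, r y ≠ 0 → IsUnit y := by
    intro y hy
    by_contra hu
    exact hy (by rw [hr0, IsLocalRing.residue_eq_zero_iff]; exact hu)
  have : CharP O p := charP_of_injective_algebraMap (algebraMap K O).injective p
  have : IsAlgClosed (IsLocalRing.ResidueField O) := residue_closed O
  have hpts := fun l => h1 p K N Θ D₀ D d B m hDD hBB hD ν s (x l) (θ l) (hpt l) A hsA hνA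
  let X' : Fin (d * (p * (B + D.natDegree))) → O := fun l => ⟨x l, hint _ (hpts l).1⟩
  let T' : Fin (d * (p * (B + D.natDegree))) → O := fun l => ⟨θ l, hint _ (hpts l).2.1⟩
  let s' : O := ⟨s, hAO s hsA⟩
  let ν' : Fin m → O := fun i => ⟨ν i, hAO _ (hνA i)⟩
  have hrs : r s' = 0 := by
    rw [hr0, IsLocalRing.residue_eq_zero_iff]
    exact (O.coe_mem_nonunits_iff (a := s')).1 hsO
  have e1 : ∀ l, eT Θ (X' l) (T' l) = 0 := by
    intro l
    apply hf
    rw [eT_map, map_zero]
    have := (hpt l).1
    rw [tA_eval] at this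
    exact this
  have e2 : ∀ l, eG D p B ν' (X' l) = s' * (aeval (X' l) D * T' l) ^ p := by
    intro l
    apply hf
    rw [eG_map, map_mul, map_pow, map_mul, ← Polynomial.aeval_algHom_apply]
    have := (hpt l).2.2
    rw [GG_eval] at this
    exact this
  obtain ⟨S, hS1, hS2, hS3, hS4⟩ := h2 p K (IsLocalRing.ResidueField O) Θ D₀ D d B m hDD hBB hD hB
    (fun i => r (ν' i))
  have hmem : ∀ l, (r (X' l), r (T' l)) ∈ S := by
    intro l
    refine (hS1 _).2 ⟨?_, ?_⟩
    · show (GG D p B (fun i => r (ν' i))).eval (r (X' l)) = 0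
      rw [GG_eval, ← eG_map, e2, map_mul, hrs, zero_mul]
    · show (tA Θ (r (X' l))).eval (r (T' l)) = 0
      rw [tA_eval, ← eT_map, e1, map_zero]
  have hprod : ∏ z ∈ S, tZ Θ z.1 z.2 ≠ 0 := by
    rw [hS4]
    intro h0
    have h5 : D₀.leadingCoeff ^ (p * B) = 0 := by
      apply (algebraMap K (IsLocalRing.ResidueField O)).injective
      rw [h0, map_zero]
    exact hDD.ne (leadingCoeff_eq_zero.1 (pow_eq_zero_iff
      (Nat.mul_pos hp.out.pos hBB.one).ne' |>.1 h5))
  have htZ : ∀ z ∈ S, tZ Θ z.1 z.2 ≠ 0 := Finset.prod_ne_zero_iff.1 hprod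
  have hinj : Function.Injective (fun l => (r (X' l), r (T' l))) := by
    intro l l' hll
    have h6 : r (X' l) = r (X' l') := congrArg Prod.fst hll
    have h7 : r (T' l) = r (T' l') := congrArg Prod.snd hll
    have h8 := red_inj p r hr Θ D B m ν' s' (X' l) (T' l) (X' l') (T' l') (e1 l) (e1 l') (e2 l)
      (e2 l') h6 h7 (by
        have := htZ _ (hmem l)
        rw [tZ_eq] at this
        exact this) (hS2 _ (hmem l))
    exact hx (congrArg Subtype.val h8)
  have himg : Finset.univ.image (fun l => (r (X' l), r (T' l))) = S := by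
    apply Finset.eq_of_subset_of_card_le
    · intro z hz
      obtain ⟨l, -, rfl⟩ := Finset.mem_image.1 hz
      exact hmem l
    · rw [hS3, Finset.card_image_of_injective _ hinj, Finset.card_univ, Fintype.card_fin]
  let c' : O := ∏ l, eT (derivative Θ) (X' l) (T' l)
  have hfc : f c' = ∏ l, tZ Θ (x l) (θ l) := by
    rw [map_prod]
    refine Finset.prod_congr rfl fun l _ => ?_
    rw [eT_map, tZ_eq]
    rfl
  have hrc : r c' = algebraMap K _ (D₀.leadingCoeff ^ (p * B)) := by
    rw [← hS4, ← himg, Finset.prod_image (fun a _ b _ h => hinj h), map_prod]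
    refine Finset.prod_congr rfl fun l _ => ?_
    rw [eT_map, tZ_eq]
  by_contra hne
  let y : O := c' - algebraMap K O (D₀.leadingCoeff ^ (p * B))
  have hy0 : r y = 0 := by
    rw [map_sub, hrc, AlgHom.commutes, sub_self]
  have hfy : f y = ∏ l, tZ Θ (x l) (θ l) - algebraMap K N (D₀.leadingCoeff ^ (p * B)) := by
    rw [map_sub, hfc, AlgHom.commutes]
  have hfy0 : f y ≠ 0 := by
    rw [hfy]
    exact sub_ne_zero.2 hne
  have halg2 : IsAlgebraic K (f y) := by
    rw [hfy]
    exact halg.sub (isAlgebraic_algebraMap _)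
  have hin : (f y)⁻¹ ∈ O := by
    apply hint
    exact (isAlgebraic_iff_isIntegral.1 halg2.inv).tower_top
  let z : O := ⟨(f y)⁻¹, hin⟩
  have hyz : y * z = 1 := by
    apply hf
    rw [map_mul, map_one]
    exact mul_inv_cancel₀ hfy0
  have h9 := congrArg r hyz
  rw [map_mul, hy0, zero_mul, map_one] at h9
  exact zero_ne_one h9

end Pool.Agent.N744.PP
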